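import Pool.Agent.H66.XP.Stmt

/-!
# Exponential time in EQP, version 2: definitions

Protocols which may see the oracle except the strings on which the language depends, and unambiguous
alternation.
-/

set_option autoImplicit false

namespace Pool.Agent.H17.XW

open Pool.Agent.H70.OQ Pool.Agent.H66.AV

/-- `w` is one of the strings `0 1^k 0 z`, `|z| = 2 ^ (k + 1) n`: it depends only on these strings
whether the inputs of length `n` are in `alang k O`. -/
def Tab (n k : ℕ) (w : List Bool) : Prop :=
  ∃ z : List Bool, z.length = 2 ^ (k + 1) * n ∧ w = false :: hdr k z

open Classical in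
/-- What the protocols for the inputs of length `n` may see of the oracle `O`: the values on all strings
of length at most `n ^ 3 / 2` except the strings of `Tab n k`. -/
noncomputable def hide (n k : ℕ) (O : List Bool → Bool) (w : List Bool) : Bool :=
  if 2 * w.length ≤ n ^ 3 ∧ ¬ Tab n k w then O w else false

/-- The alternating computation `∃ v₁ ∀ v₂ ∃ v₃ …` with the start `w` is unambiguous at every
quantifier: `|v₁| = l, |v₂| = 2 l, …`, at most one `v₁` is a witness, and the computations with the
starts `w v₁`, `|v₁| = l`, are unambiguous at every quantifier. -/
def Una (O : List Bool → Bool) : ℕ → ℕ → List Bool → Prop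
  | 0, _, _ => True
  | k + 1, l, w => (∀ v v' : List Bool, v.length = l → v'.length = l → ¬ Nd O k (2 * l) (w ++ v) →
      ¬ Nd O k (2 * l) (w ++ v') → v = v') ∧
      ∀ v : List Bool, v.length = l → Una O k (2 * l) (w ++ v)

end Pool.Agent.H17.XW
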