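import Pool.Agent.H66.XP.TI
import Pool.Agent.H17.XW.Stmt

/-!
# Exponential time in EQP, version 2: targets

A free look at the oracle outside the table, and unambiguity.
-/

set_option autoImplicit false

namespace Pool.Agent.H17.XW

open Finset Pool.Agent.H6.NB Pool.Agent.H70.OQ Pool.Agent.H70.EH Pool.Agent.H70.EI Pool.Agent.H78.XQ
open Pool.Agent.H66.IP (Local ins sp dm IsZ scl)
open Pool.Agent.H66.IQ Pool.Agent.H66.AV Pool.Agent.H66.XP

/-- TBS: the strings of the tables are those of `Tab`. -/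
def T_TBS : Prop := ∀ (n k : ℕ) (x : Fin n → Bool) (q : Nn n k), Tab n k (astr n k x q)

/-- HDE: what the protocols see does not depend on the blocks of large scale and on the table. -/
def T_HDE : Prop := ∀ (V : ℕ → Exq) (E : Finset (ℕ × List Bool))
  (O : (∀ p : {a // a ∈ E}, Cp V p.1) → (List Bool → Bool) → List Bool → Bool),
  IsZ (dm (lo V)) E O → ∀ (n k : ℕ) (P : ∀ p : {a // a ∈ E}, Cp V p.1) (g : List Bool → Bool),
  (∀ (p : ℕ × List Bool) (h : p ∈ E) (c : Cp V p), n + 1 ≤ 3 * scl (lo V) p →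
    hide n k (O (Function.update P ⟨p, h⟩ c) g) = hide n k (O P g)) ∧
  ∀ T, hide n k (O P (ovl n k g T)) = hide n k (O P g)

/-- RE2: the expectation of the test function. -/
def T_RE2 : Prop := ∀ (V : ℕ → Exq) (k : ℕ), ∃ n₀, ∀ n ≥ n₀,
  ∀ (A C : (List Bool → Bool) → (Fin n → Bool) → Prot k) (B' : ℕ), 1 ≤ B' →
  (∀ f x, (A f x).Within (2 ^ (n / 6))) → (∀ f x, (C f x).Within (2 ^ (n / 4))) →
  (∀ f x O, 1 - (C f x).val O = (1 - (A f x).val O) ^ B') →
  ∀ ε : ℝ, 0 < ε → ∀ (E : Finset (ℕ × List Bool))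
    (O : (∀ p : {a // a ∈ E}, Cp V p.1) → (List Bool → Bool) → List Bool → Bool),
    IsZ (dm (lo V)) E O → ∀ g : List Bool → Bool,
  ∑ z : Wn n k, ∑ B, ∑ P, wY V E O (ovl n k g (tbl z)) B P *
      tst ε (A (hide n k (O P g))) (C (hide n k (O P g))) (fun T => O P (ovl n k g T)) z ≤
    Fintype.card (Wn n k) * nC V E * (32 / ε ^ 2 * (1 / 2) ^ (n / 3) +
      2 / ε * (1 / B' + 2 * (1 / 2) ^ (n / 3)) + (36 / ε ^ 2 + 4 / ε) * (1 / 2) ^ (n / 2))

/-- SU2: the expectation of the test function for all tables at once, uniformly in the protocols. -/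
def T_SU2 : Prop := ∀ (V : ℕ → Exq) (k : ℕ), ∃ n₁, ∀ n ≥ n₁,
  ∀ G : (List Bool → Bool) → List Bool → Prot k,
  (∀ f, ∀ x : Fin n → Bool, (G f (List.ofFn x)).Within (2 ^ (n / 16))) →
  ∃ A C : (List Bool → Bool) → (Fin n → Bool) → Prot k,
    (∀ (f : List Bool → Bool) (Q : ((Fin n → Bool) → Nn n k → Bool) → List Bool → Bool)
      (z : Wn n k),
      0 ≤ tst ((1 / 2) ^ (n / 64)) (A f) (C f) Q z ∧
      ((∀ x, List.ofFn x ∈ alang k (Q (tbl z)) ↔ (z x).1 = true) →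
        tst ((1 / 2) ^ (n / 64)) (A f) (C f) Q z < 1 →
        (rights (G f) (Q (tbl z)) n : ℝ) ≤ (1 / 2 + (1 / 2) ^ (n / 64)) * 2 ^ n)) ∧
    ∀ (M : ℕ) (hk : k < M) (hn : n < M) (E : Finset (ℕ × List Bool))
      (O : (∀ p : {a // a ∈ E}, Cp V p.1) → (List Bool → Bool) → List Bool → Bool),
      IsZ (dm (lo V)) E O →
      ∑ z : Za M, ∑ B, ∑ P, wY V E O (gzx M z) B P *
        tst ((1 / 2) ^ (n / 64)) (A (hide n k (O P (gzx M z)))) (C (hide n k (O P (gzx M z))))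
          (fun T => O P (ovl n k (gzx M z) T)) (z (⟨k, hk⟩, ⟨n, hn⟩)) ≤
      Fintype.card (Za M) * nC V E * (1 / 2) ^ (n / 100)

/-- UNA: the tables are unambiguous. -/
def T_UNA : Prop := ∀ (n k : ℕ) (z : Wn n k) (x : Fin n → Bool) (O : List Bool → Bool),
  (∀ q, O (astr n k x q) = tbl z x q) → Una O (k + 1) n (false :: hdr k (List.ofFn x))

/-- UNL: unambiguity depends on finitely many strings. -/
def T_UNL : Prop := ∀ (k l : ℕ) (w : List Bool), ∃ L, ∀ O O' : List Bool → Bool,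
  (∀ v : List Bool, v.length ≤ L → O v = O' v) → Una O k l w → Una O' k l w

/-- FM2: the oracle for finitely many requirements. -/
def T_FM2 : Prop := ∀ (V : ℕ → Exq)
  (G : ℕ → (k : ℕ) × (List Bool → (List Bool → Bool) → List Bool → Prot k)),
  (∀ j, ∃ n₀, ∀ (a : List Bool) (f : List Bool → Bool) (x : List Bool), n₀ ≤ x.length →
    200 * a.length ≤ x.length → ((G j).2 a f x).Within (2 ^ (x.length / 16))) →
  ∃ N : ℕ → ℕ, ∀ M : ℕ, ∃ O : List Bool → Bool,
    (∀ p, (sp (lo V) p).length ≤ M → GoodX V p O) ∧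
    (∀ k n, k < M → n < M → ∀ x : Fin n → Bool,
      Una O (k + 1) n (false :: hdr k (List.ofFn x))) ∧
    ∀ j < M, ∀ n < M, N j ≤ n → ∀ a : List Bool, 200 * a.length ≤ n →
      (rights ((G j).2 a (hide n (G j).1 O)) O n : ℝ) ≤ (1 / 2 + (1 / 2) ^ (n / 64)) * 2 ^ n

/-- RL2: the number of the right inputs depends on finitely many strings. -/
def T_RL2 : Prop := ∀ (k n : ℕ) (G : (List Bool → Bool) → List Bool → Prot k), ∃ L,
  ∀ O O' : List Bool → Bool, (∀ w, w.length ≤ L → O w = O' w) →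
  rights (G (hide n k O)) O n = rights (G (hide n k O')) O' n

/-- FI9: the theorem. -/
def T_FI9 : Prop := ∀ (V : ℕ → Exq)
  (G : ℕ → (k : ℕ) × (List Bool → (List Bool → Bool) → List Bool → Prot k)),
  (∀ j, ∃ n₀, ∀ (a : List Bool) (f : List Bool → Bool) (x : List Bool), n₀ ≤ x.length →
    200 * a.length ≤ x.length → ((G j).2 a f x).Within (2 ^ (x.length / 16))) →
  ∃ O : List Bool → Bool,
    (∀ i x, (((V i).tree x).eval O = true → (exact (ins (V i).c i x)).prob O = 1) ∧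
      (((V i).tree x).eval O = false → (exact (ins (V i).c i x)).prob O = 0)) ∧
    (∀ (k : ℕ) (x : List Bool), Una O (k + 1) x.length (false :: hdr k x)) ∧
    ∀ j, ∃ n₀, ∀ n ≥ n₀, ∀ a : List Bool, 200 * a.length ≤ n →
      (rights ((G j).2 a (hide n (G j).1 O)) O n : ℝ) ≤ (1 / 2 + (1 / 2) ^ (n / 64)) * 2 ^ n

end Pool.Agent.H17.XW
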