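import Pool.Agent.H17.XW.TJ
import Pool.Agent.H66.IP.TC
import Pool.Agent.H99.AVH.AST

/-!
# Exponential time in EQP, version 2: what the protocols see
-/

set_option autoImplicit false

namespace Pool.Agent.H17.XW

open Finset Pool.Agent.H6.NB Pool.Agent.H70.OQ Pool.Agent.H70.EH Pool.Agent.H70.EI Pool.Agent.H78.XQ
open Pool.Agent.H66.IP (Local ins sp dm IsZ scl)
open Pool.Agent.H66.IQ Pool.Agent.H66.AV Pool.Agent.H66.XP
open Pool.Agent.H75.OM (BPos)

theorem pf_TBS : T_TBS := by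
  intro n k x q
  refine ⟨List.ofFn x ++ nstr n k q, ?_, ?_⟩
  · rw [List.length_append, List.length_ofFn, add_comm]
    exact Pool.Agent.H99.AVH.AST.nstr_len n k q
  · unfold astr hdr
    simp

theorem pf_HDE (hSPF : Pool.Agent.H66.IP.T_SPF) (hIZU : Pool.Agent.H66.IP.T_IZU)
    (hTBS : T_TBS) : T_HDE := by
  intro V E O hO n k P g
  refine ⟨?_, ?_⟩
  · intro p h c hp
    funext w
    unfold hide
    by_cases hw : 2 * w.length ≤ n ^ 3 ∧ ¬ Tab n k w
    · rw [if_pos hw, if_pos hw]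
      refine (((hIZU (dm (lo V)) E O hO).1 P g p h).1 w c ?_)
      intro hB
      obtain ⟨-, s2, -, s4, -, -⟩ := hSPF (lo V)
      have h1 := (s4 p w hB).1
      obtain ⟨h2, h3, -⟩ := s2 p
      have h4 : (n + 1) ^ 3 ≤ (3 * scl (lo V) p) ^ 3 := Nat.pow_le_pow_left hp 3
      have h5 : n ^ 3 < (n + 1) ^ 3 := Nat.pow_lt_pow_left (Nat.lt_succ_self n) (by norm_num)
      have h6 : (3 * scl (lo V) p) ^ 3 = 27 * scl (lo V) p ^ 3 := by ring
      have h7 := hw.1
      omega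
    · rw [if_neg hw, if_neg hw]
  · intro T
    funext w
    unfold hide
    by_cases hw : 2 * w.length ≤ n ^ 3 ∧ ¬ Tab n k w
    · rw [if_pos hw, if_pos hw]
      refine (hIZU (dm (lo V)) E O hO).2 P _ _ w ?_
      unfold ovl
      rw [dif_neg]
      rintro ⟨y, hy⟩
      exact hw.2 (hy ▸ hTBS n k y.1 y.2)
    · rw [if_neg hw, if_neg hw]

end Pool.Agent.H17.XW
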