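import Pool.Agent.H17.XW.TJ
import Pool.Agent.H66.AVH.REQ

/-!
# Exponential time in EQP, version 2: row RE2 (the expectation of the test function)
-/

set_option autoImplicit false

namespace Pool.Agent.H17.XW

open Finset Pool.Agent.H70.OQ Pool.Agent.H70.EH Pool.Agent.H78.XQ
open Pool.Agent.H6.NB hiding sg
open Pool.Agent.H70.EI hiding T_AST
open Pool.Agent.H66.IP (Local ins sp dm IsZ scl)
open Pool.Agent.H66.IQ
open Pool.Agent.H66.AV
open Pool.Agent.H66.XP
open Pool.Agent.H66.AVH (req_sq req_ln within_mono)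

noncomputable local instance rexF (V : ℕ → Exq) (E : Finset (ℕ × List Bool)) :
    Fintype ((∀ p : {a // a ∈ E}, Cp V p.1) × (∀ p : {a // a ∈ E}, Cp V p.1)) :=
  instFintypeProd _ _

theorem pf_RE2 (hPFX : T_PFX) (hWMX : T_WMX) (hGLX : T_GLX) (hHYB : Pool.Agent.H66.XP.T_HYB) (hID1 : T_ID1)
    (hID2 : T_ID2) (hOVL : T_OVL) (hHDE : T_HDE) : T_RE2 := by
  intro V k
  obtain ⟨n₂, h2⟩ := hPFX V k
  obtain ⟨n₃, h3⟩ := hID1 k
  obtain ⟨n₄, h4⟩ := hID2 k
  refine ⟨n₂ + n₃ + n₄ + 60, fun n hn A C B' hB hA hC hrel ε hε E O hO g => ?_⟩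
  have hA4 : ∀ f x, (A f x).Within (2 ^ (n / 4)) := fun f x =>
    within_mono (Nat.pow_le_pow_right (by norm_num) (by omega)) (hA f x)
  set one : (List Bool → Bool) → Prot k := fun _ => .test (.leaf true) with hone
  have hone4 : ∀ f, (one f).Within (2 ^ (n / 4)) := fun _ => ⟨Nat.zero_le _, Nat.zero_le _, trivial⟩
  have hval1 : ∀ f O, (one f).val O = 1 := fun f O => by
    show (if (Exam.leaf true : Exam k).eval O = true then (1 : ℝ) else 0) = 1
    exact if_pos rfl
  have hnC : 0 ≤ nC V E := Nat.cast_nonneg _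
  -- a pair of protocols
  have hpair : ∀ (G₁ G₂ : (List Bool → Bool) → Prot k), (∀ f, (G₁ f).Within (2 ^ (n / 4))) →
      (∀ f, (G₂ f).Within (2 ^ (n / 4))) → ∀ g₀ g₁ g₂ : List Bool → Bool,
      |∑ P : (∀ p : {a // a ∈ E}, Cp V p.1) × (∀ p : {a // a ∈ E}, Cp V p.1),
        (wY V E O g₀ P.1 P.2 - wX V E O n g₀ P.1 P.2) *
          ((G₁ (hide n k (O P.2 g))).val (O P.2 g₁) * (G₂ (hide n k (O P.2 g))).val (O P.2 g₂))| ≤
        nC V E * (1 / 2) ^ (n / 2) := by
    intro G₁ G₂ hG₁ hG₂ g₀ g₁ g₂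
    have h := hHYB V E O hO n g₀ (fun P => (G₁ (hide n k (O P g))).val (O P g₁) *
      (G₂ (hide n k (O P g))).val (O P g₂)) (by omega)
      (fun P p hp b K B hs hK => by
        have e := fun c => (hHDE V E O hO n k P g).1 p hp c hs
        simp only [e]
        exact h2 n (by omega) (G₁ _) (G₂ _) (hG₁ _) (hG₂ _) E O hO P g₁ g₂ p hp b K B hs hK)
    rw [← Finset.sum_sub_distrib] at h
    rw [Fintype.sum_prod_type]
    simpa only [← Finset.sum_sub_distrib, sub_mul] using h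
  have hcard : (Fintype.card (Fin n → Bool) : ℝ) = 2 ^ n := by simp
  have h4n : (4 : ℝ) ^ n = (2 ^ n) ^ 2 := by
    rw [← pow_mul, mul_comm, pow_mul]; norm_num
  have h2n : (0 : ℝ) < 2 ^ n := by positivity
  set δ : ℝ := nC V E * (1 / 2) ^ (n / 2) with hδ
  have hδ0 : 0 ≤ δ := by positivity
  -- the weights of the blocks of small scale
  have hwg : ∀ (z : Wn n k) B P, wX V E O n (ovl n k g (tbl z)) B P = wX V E O n g B P := by
    intro z B P
    refine (hGLX V E O n _ _ (fun w hw => ?_) P B).2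
    exact (hOVL n k g).2.1 (tbl z) w fun x q hwx => hw n k x q le_rfl hwx
  have hz : ∀ z : Wn n k, ∑ B, ∑ P, wY V E O (ovl n k g (tbl z)) B P *
      tst ε (A (hide n k (O P g))) (C (hide n k (O P g))) (fun T => O P (ovl n k g T)) z ≤
      ∑ B, ∑ P, wX V E O n g B P *
        tst ε (A (hide n k (O P g))) (C (hide n k (O P g))) (fun T => O P (ovl n k g T)) z +
        (36 / ε ^ 2 + 4 / ε) * δ := by
    intro z
    set D : (∀ p : {a // a ∈ E}, Cp V p.1) × (∀ p : {a // a ∈ E}, Cp V p.1) → ℝ := fun P =>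
      wY V E O (ovl n k g (tbl z)) P.1 P.2 - wX V E O n (ovl n k g (tbl z)) P.1 P.2 with hD
    have hs0 := req_sq D (fun x => sg (z x).1)
      (fun x P => (A (hide n k (O P.2 g)) x).val (O P.2 (ovl n k g (tbl (zer z x))))) δ
      (fun x => by unfold sg; split_ifs <;> norm_num)
      (fun x x' => hpair (fun f => A f x) (fun f => A f x') (fun f => hA4 f x)
        (fun f => hA4 f x') _ _ _)
      (fun x => by
        have h := hpair (fun f => A f x) one (fun f => hA4 f x) hone4 (ovl n k g (tbl z))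
          (ovl n k g (tbl (zer z x))) g
        simpa only [hval1, mul_one] using h)
      (by
        have h := hpair one one hone4 hone4 (ovl n k g (tbl z)) g g
        simpa only [hval1, mul_one] using h)
    have hs1 := req_ln D (fun x => (z x).1)
      (fun x P => (A (hide n k (O P.2 g)) x).val (O P.2 (ovl n k g (tbl (zer z x)))))
      (fun x P => (C (hide n k (O P.2 g)) x).val (O P.2 (ovl n k g (tbl z)))) δ hδ0
      (fun x => hpair (fun f => A f x) (fun f => C f x) (fun f => hA4 f x) (fun f => hC f x) _ _ _)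
      (fun x => by
        have h := hpair (fun f => A f x) one (fun f => hA4 f x) hone4 (ovl n k g (tbl z))
          (ovl n k g (tbl (zer z x))) g
        simpa only [hval1, mul_one] using h)
    rw [hcard] at hs0 hs1
    have e1 : ∑ P : (∀ p : {a // a ∈ E}, Cp V p.1) × (∀ p : {a // a ∈ E}, Cp V p.1),
        wY V E O (ovl n k g (tbl z)) P.1 P.2 *
        tst ε (A (hide n k (O P.2 g))) (C (hide n k (O P.2 g))) (fun T => O P.2 (ovl n k g T)) z =
        ∑ P : (∀ p : {a // a ∈ E}, Cp V p.1) × (∀ p : {a // a ∈ E}, Cp V p.1),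
          wX V E O n g P.1 P.2 *
          tst ε (A (hide n k (O P.2 g))) (C (hide n k (O P.2 g))) (fun T => O P.2 (ovl n k g T)) z +
        (16 / (ε ^ 2 * 4 ^ n) * ∑ P, D P * (∑ x, sg (z x).1 *
          ((A (hide n k (O P.2 g)) x).val (O P.2 (ovl n k g (tbl (zer z x)))) - 1 / 2)) ^ 2 +
        2 / (ε * 2 ^ n) * ∑ P, D P * (∑ x, if (z x).1 then
          (A (hide n k (O P.2 g)) x).val (O P.2 (ovl n k g (tbl (zer z x)))) *
          (1 - (C (hide n k (O P.2 g)) x).val (O P.2 (ovl n k g (tbl z)))) else 0)) := by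
      rw [Finset.mul_sum, Finset.mul_sum, ← Finset.sum_add_distrib, ← Finset.sum_add_distrib]
      refine Finset.sum_congr rfl fun P _ => ?_
      have e2 : tst ε (A (hide n k (O P.2 g))) (C (hide n k (O P.2 g)))
          (fun T => O P.2 (ovl n k g T)) z =
          16 / (ε ^ 2 * 4 ^ n) * (∑ x, sg (z x).1 *
          ((A (hide n k (O P.2 g)) x).val (O P.2 (ovl n k g (tbl (zer z x)))) - 1 / 2)) ^ 2 +
          2 / (ε * 2 ^ n) * (∑ x, if (z x).1 then
          (A (hide n k (O P.2 g)) x).val (O P.2 (ovl n k g (tbl (zer z x)))) *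
          (1 - (C (hide n k (O P.2 g)) x).val (O P.2 (ovl n k g (tbl z)))) else 0) := rfl
      rw [e2]
      simp only [hD, hwg z P.1 P.2]
      ring
    rw [← Fintype.sum_prod_type' (f := fun B P => wY V E O (ovl n k g (tbl z)) B P *
      tst ε (A (hide n k (O P g))) (C (hide n k (O P g))) (fun T => O P (ovl n k g T)) z),
      ← Fintype.sum_prod_type' (f := fun B P => wX V E O n g B P *
      tst ε (A (hide n k (O P g))) (C (hide n k (O P g))) (fun T => O P (ovl n k g T)) z), e1]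
    have hα : 0 ≤ 16 / (ε ^ 2 * 4 ^ n) := by positivity
    have hβ : 0 ≤ 2 / (ε * 2 ^ n) := by positivity
    have f1 := mul_le_mul_of_nonneg_left hs0 hα
    have f2 := mul_le_mul_of_nonneg_left hs1 hβ
    have f3 : 16 / (ε ^ 2 * 4 ^ n) * (((2 : ℝ) ^ n) ^ 2 * (9 / 4 * δ)) = 36 / ε ^ 2 * δ := by
      rw [h4n]; field_simp; ring
    have f4 : 2 / (ε * 2 ^ n) * ((2 : ℝ) ^ n * (2 * δ)) = 4 / ε * δ := by
      field_simp; ring
    rw [f3] at f1
    rw [f4] at f2
    have f5 : (36 / ε ^ 2 + 4 / ε) * δ = 36 / ε ^ 2 * δ + 4 / ε * δ := by ring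
    rw [f5]
    linarith
  refine (Finset.sum_le_sum fun z _ => hz z).trans ?_
  rw [Finset.sum_add_distrib, Finset.sum_comm]
  have hK : ∀ B ∈ (univ : Finset (∀ p : {a // a ∈ E}, Cp V p.1)),
      ∑ z : Wn n k, ∑ P, wX V E O n g B P *
        tst ε (A (hide n k (O P g))) (C (hide n k (O P g))) (fun T => O P (ovl n k g T)) z ≤
      Fintype.card (Wn n k) * (32 / ε ^ 2 * (1 / 2) ^ (n / 3) +
        2 / ε * (1 / B' + 2 * (1 / 2) ^ (n / 3))) := by
    intro B _
    have hK0 : 0 ≤ (Fintype.card (Wn n k) : ℝ) * (32 / ε ^ 2 * (1 / 2) ^ (n / 3) +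
        2 / ε * (1 / B' + 2 * (1 / 2) ^ (n / 3))) := by positivity
    have hK' : ∀ P ∈ (univ : Finset (∀ p : {a // a ∈ E}, Cp V p.1)),
        ∑ z : Wn n k, wX V E O n g B P *
          tst ε (A (hide n k (O P g))) (C (hide n k (O P g))) (fun T => O P (ovl n k g T)) z ≤
        wX V E O n g B P * (Fintype.card (Wn n k) * (32 / ε ^ 2 * (1 / 2) ^ (n / 3) +
          2 / ε * (1 / B' + 2 * (1 / 2) ^ (n / 3)))) := by
      intro P _
      rw [← Finset.mul_sum]
      refine mul_le_mul_of_nonneg_left ?_ (((hWMX V E O hO g B).1 P).2 n)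
      have hL := ((hOVL n k g).2.2.2 (lo V) E O hO P).1
      obtain ⟨f, hf⟩ : ∃ f : List Bool → Bool, f = hide n k (O P g) := ⟨_, rfl⟩
      rw [← hf]
      have g1 := h3 n (by omega) (A f) (C f) B' hB (hA f) (hrel f) _ hL
      have g2 := h4 n (by omega) (A f) (hA f) _ hL
      have e3 : ∑ z : Wn n k, tst ε (A f) (C f) (fun T => O P (ovl n k g T)) z =
          16 / (ε ^ 2 * 4 ^ n) * ∑ z : Wn n k, s0 (A f) (fun T => O P (ovl n k g T)) z ^ 2 +
          2 / (ε * 2 ^ n) * ∑ z : Wn n k, s1 (A f) (C f) (fun T => O P (ovl n k g T)) z := by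
        rw [Finset.mul_sum, Finset.mul_sum, ← Finset.sum_add_distrib]
        rfl
      rw [e3]
      have hα : 0 ≤ 16 / (ε ^ 2 * 4 ^ n) := by positivity
      have hβ : 0 ≤ 2 / (ε * 2 ^ n) := by positivity
      have f1 := mul_le_mul_of_nonneg_left g2 hα
      have f2 := mul_le_mul_of_nonneg_left g1 hβ
      have f3 : 16 / (ε ^ 2 * 4 ^ n) * ((Fintype.card (Wn n k) : ℝ) * 4 ^ n *
          (2 * (1 / 2) ^ (n / 3))) = Fintype.card (Wn n k) * (32 / ε ^ 2 * (1 / 2) ^ (n / 3)) := by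
        field_simp; ring
      have f4 : 2 / (ε * 2 ^ n) * ((Fintype.card (Wn n k) : ℝ) * 2 ^ n *
          (1 / B' + 2 * (1 / 2) ^ (n / 3))) =
          Fintype.card (Wn n k) * (2 / ε * (1 / B' + 2 * (1 / 2) ^ (n / 3))) := by
        have : ε ≠ 0 := hε.ne'
        have : (2 : ℝ) ^ n ≠ 0 := h2n.ne'
        generalize (1 / (B' : ℝ) + 2 * (1 / 2) ^ (n / 3)) = y
        field_simp
      rw [f3] at f1
      rw [f4] at f2
      calc _ ≤ _ := add_le_add f1 f2
        _ = _ := by ring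
    rw [Finset.sum_comm]
    have hK1 := (Finset.sum_le_sum hK')
    rw [← Finset.sum_mul] at hK1
    have hK2 := mul_le_mul_of_nonneg_right ((hWMX V E O hO g B).2.2.1 n) hK0
    rw [one_mul] at hK2
    exact hK1.trans hK2
  have hK1 := (Finset.sum_le_sum hK)
  rw [Finset.sum_const, Finset.card_univ, nsmul_eq_mul] at hK1
  rw [Finset.sum_const, Finset.card_univ, nsmul_eq_mul]
  have hnCe : (Fintype.card (∀ p : {a // a ∈ E}, Cp V p.1) : ℝ) = nC V E := rfl
  rw [hnCe] at hK1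
  calc _ ≤ nC V E * ((Fintype.card (Wn n k) : ℝ) * (32 / ε ^ 2 * (1 / 2) ^ (n / 3) +
        2 / ε * (1 / B' + 2 * (1 / 2) ^ (n / 3)))) +
        Fintype.card (Wn n k) * ((36 / ε ^ 2 + 4 / ε) * δ) := add_le_add hK1 le_rfl
    _ = _ := by rw [hδ]; ring

end Pool.Agent.H17.XW
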