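import Pool.Agent.H17.XW.TJ
import Pool.Agent.H66.AV.TF
import Pool.Agent.H18.IP.PLT
import Pool.Agent.H70.OQ.NDV

/-!
# Unambiguous alternation: the tables are unambiguous, and locality (helper18's proof, rows UNA, UNL)
-/

set_option autoImplicit false

namespace Pool.Agent.H17.XW.XU

open Finset Pool.Agent.H66.AV Pool.Agent.H6.NB Pool.Agent.H70.OQ Pool.Agent.H70.EH
open Pool.Agent.H70.EI Pool.Agent.H78.XQ
open Pool.Agent.H17.XW

/-- The oracle contains the table with the values `b` of the rows at the strings which begin with `p`. -/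
def Hyp (n : ℕ) (p : List Bool) (b : (Fin n → Bool) → Bool) (O : List Bool → Bool) (k : ℕ) : Prop :=
  ∃ H : Hid (Fin n → Bool) (Ys n) k, ∀ q : Nn n k, O (p ++ nstr n k q) = sv b k H q

theorem nd_node (n : ℕ) (p : List Bool) (b : (Fin n → Bool) → Bool) (i : ℕ) :
    ∀ (j : ℕ) (O : List Bool → Bool), Hyp n p b O (i + j) →
      ∃ Hi : Hid (Fin n → Bool) (Ys n) i, ∀ a : Nn n i,
        Nd O j (2 ^ (i + 1) * n) (p ++ nstr n i a) ↔ sv b i Hi a = true := by
  intro j
  induction j with
  | zero =>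
    rintro O ⟨H, hH⟩
    refine ⟨H, fun a => ?_⟩
    rw [show Nd O 0 (2 ^ (i + 1) * n) (p ++ nstr n i a) = (O (p ++ nstr n i a) = true) from rfl,
      show O (p ++ nstr n i a) = sv b i H a from hH a]
  | succ j ih =>
    rintro O ⟨H, hH⟩
    have e1 : 2 ^ j * (2 ^ (i + 1) * n) = 2 ^ (i + j + 1) * n := by ring
    have hq : ∀ q : Nn n (i + j), NDV.peel O (2 ^ (i + j + 1) * n) (p ++ nstr n (i + j) q) =
        sv b (i + j) H.1 q := by
      intro q
      have h2 : ∀ y : Ys n (i + j), O (p ++ nstr n (i + j) q ++ List.ofFn y) =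
          !(sv b (i + j) H.1 q && decide (y = H.2 q)) := fun y => by
        rw [List.append_assoc]
        exact hH (q, y)
      rw [Bool.eq_iff_iff, NDV.peel_iff]
      constructor
      · rintro ⟨v, hv, hO⟩
        obtain ⟨y, rfl⟩ := NDV.exists_ofFn hv
        rw [h2 y] at hO
        by_contra hne
        simp [hne] at hO
      · intro hs
        refine ⟨List.ofFn (H.2 q : Ys n (i + j)), by simp, ?_⟩
        rw [h2]
        simp [hs]
    obtain ⟨Hi, hHi⟩ := ih (NDV.peel O (2 ^ (i + j + 1) * n)) ⟨H.1, hq⟩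
    refine ⟨Hi, fun a => ?_⟩
    rw [NDV.nd_peel, e1]
    exact hHi a

theorem una_node (n : ℕ) (p : List Bool) (b : (Fin n → Bool) → Bool) (O : List Bool → Bool) :
    ∀ (j i : ℕ), Hyp n p b O (i + j) → ∀ a : Nn n i, Una O j (2 ^ (i + 1) * n) (p ++ nstr n i a) := by
  intro j
  induction j with
  | zero =>
    intro i _ a
    trivial
  | succ j ih =>
    intro i h a
    have h' : Hyp n p b O (i + 1 + j) := by
      have e : i + (j + 1) = i + 1 + j := by omega
      rw [← e]
      exact h
    obtain ⟨H, hH⟩ := nd_node n p b (i + 1) j O h'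
    have e1 : 2 * (2 ^ (i + 1) * n) = 2 ^ (i + 1 + 1) * n := by ring
    have key : ∀ v : List Bool, v.length = 2 ^ (i + 1) * n →
        ¬ Nd O j (2 * (2 ^ (i + 1) * n)) (p ++ nstr n i a ++ v) →
        v = List.ofFn (H.2 a : Ys n i) := by
      intro v hv hN
      obtain ⟨y, rfl⟩ := NDV.exists_ofFn hv
      have h1 : ¬ sv b (i + 1) H ((a, y) : Nn n (i + 1)) = true := by
        rw [← hH (a, y)]
        rw [e1, List.append_assoc] at hN
        exact hN
      have h2 : sv b (i + 1) H ((a, y) : Nn n (i + 1)) =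
        !(sv b i H.1 a && decide (y = H.2 a)) := rfl
      rw [h2] at h1
      have h3 : y = H.2 a := by
        by_contra hne
        simp [hne] at h1
      rw [h3]
    refine ⟨fun v v' hv hv' hN hN' => (key v hv hN).trans (key v' hv' hN').symm, fun v hv => ?_⟩
    obtain ⟨y, rfl⟩ := NDV.exists_ofFn hv
    rw [e1, List.append_assoc]
    exact ih (i + 1) h' ((a, y) : Nn n (i + 1))

/-- The tables are unambiguous. -/
theorem una_tbl (n k : ℕ) (z : Wn n k) (x : Fin n → Bool) (O : List Bool → Bool)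
    (hO : ∀ q, O (astr n k x q) = tbl z x q) :
    Una O (k + 1) n (false :: hdr k (List.ofFn x)) := by
  obtain ⟨b, H, hb, r, hr⟩ : ∃ (b : (Fin n → Bool) → Bool) (H : Hid (Fin n → Bool) (Ys n) k),
      (∀ q, tbl z x q = sv b k H q) ∧ ∃ r, ∀ y, b y = false → y = r := by
    by_cases hz : (z x).1 = true
    · refine ⟨fun x' => !decide (x' = (z x).2.2), (z x).2.1, fun q => ?_, (z x).2.2, fun y hy => ?_⟩
      · unfold tbl tabU
        rw [if_pos hz]
      · simpa using hy
    · refine ⟨fun _ => true, (z x).2.1, fun q => ?_, (z x).2.2, fun y hy => ?_⟩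
      · unfold tbl tabT
        rw [if_neg hz]
      · simp at hy
  have hH : Hyp n (false :: hdr k (List.ofFn x)) b O (0 + k) := by
    rw [Nat.zero_add]
    exact ⟨H, fun q => (hO q).trans (hb q)⟩
  have e1 : 2 ^ (0 + 1) * n = 2 * n := by ring
  obtain ⟨H0, hH0⟩ := nd_node n _ b 0 k O hH
  have key : ∀ v : List Bool, v.length = n →
      ¬ Nd O k (2 * n) (false :: hdr k (List.ofFn x) ++ v) → v = List.ofFn r := by
    intro v hv hN
    obtain ⟨y, rfl⟩ := NDV.exists_ofFn hv
    have h1 : ¬ sv b 0 H0 (y : Nn n 0) = true := by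
      rw [← hH0 (y : Nn n 0), e1]
      exact hN
    have h2 : b y = false := by
      have h3 : ¬ b y = true := h1
      simpa using h3
    rw [hr y h2]
  refine ⟨fun v v' hv hv' hN hN' => (key v hv hN).trans (key v' hv' hN').symm, fun v hv => ?_⟩
  obtain ⟨y, rfl⟩ := NDV.exists_ofFn hv
  have h4 := una_node n _ b O k 0 hH (y : Nn n 0)
  rw [e1] at h4
  exact h4

/-- Unambiguity depends on finitely many strings. -/
theorem una_congr (O O' : List Bool → Bool) : ∀ (k l L : ℕ) (w : List Bool),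
    w.length + (2 ^ k - 1) * l ≤ L → (∀ s : List Bool, s.length ≤ L → O s = O' s) →
    Una O k l w → Una O' k l w := by
  intro k
  induction k with
  | zero =>
    intro l L w _ _ _
    trivial
  | succ k ih =>
    intro l L w hL h hU
    have hk : 1 ≤ 2 ^ k := Nat.one_le_two_pow
    obtain ⟨m, hm⟩ : ∃ m, 2 ^ k = m + 1 := ⟨2 ^ k - 1, by omega⟩
    have e0 : (2 ^ (k + 1) - 1) * l = (2 ^ k - 1) * (2 * l) + l := by
      rw [pow_succ, hm]
      have e1 : (m + 1) * 2 - 1 = 2 * m + 1 := by omega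
      have e2 : m + 1 - 1 = m := by omega
      rw [e1, e2]
      ring
    have hN : ∀ v : List Bool, v.length = l →
        (Nd O k (2 * l) (w ++ v) ↔ Nd O' k (2 * l) (w ++ v)) := by
      intro v hv
      refine Pool.Agent.H18.IP.nd_congr O O' k (2 * l) (w ++ v) fun s hs => h s ?_
      rw [hs, List.length_append, hv]
      omega
    refine ⟨fun v v' hv hv' h1 h2 => hU.1 v v' hv hv' (fun h3 => h1 ((hN v hv).1 h3))
      (fun h3 => h2 ((hN v' hv').1 h3)), fun v hv => ?_⟩
    refine ih (2 * l) L (w ++ v) ?_ h (hU.2 v hv)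
    rw [List.length_append, hv]
    omega

end Pool.Agent.H17.XW.XU

namespace Pool.Agent.H17.XW

theorem pf_UNA : T_UNA := XU.una_tbl

theorem pf_UNL : T_UNL := by
  intro k l w
  exact ⟨_, fun O O' h hU => XU.una_congr O O' k l _ w le_rfl h hU⟩

end Pool.Agent.H17.XW
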