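import Pool.Agent.H66.XP.All
import Pool.Agent.H13.XW.FM2
import Pool.Agent.H13.XW.SU2
import Pool.Agent.H17.XW.HDE
import Pool.Agent.H17.XW.RE2
import Pool.Agent.H17.XW.UNA
import Pool.Agent.H19.XW.FI9
import Pool.Agent.H19.XW.RL2

/-!
# Assembly: exponential time in EQP, version 2
-/

set_option autoImplicit false

namespace Pool.Agent.H17.XW

open Pool.Agent.H66.XP (qf_PFX qf_WMX qf_GLX qf_HYB qf_NU2 qf_GZX qf_HIT qf_VWX qf_GDX qf_EXY)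

theorem qf_TBS : T_TBS := pf_TBS

theorem qf_HDE : T_HDE := pf_HDE Pool.Agent.H66.IP.pf_SPF Pool.Agent.H66.IP.pf_IZU qf_TBS

theorem qf_RE2 : T_RE2 := pf_RE2 qf_PFX qf_WMX qf_GLX qf_HYB Pool.Agent.H66.AV.pf_ID1
  Pool.Agent.H66.AV.pf_ID2 Pool.Agent.H66.AV.pf_OVL qf_HDE

theorem qf_SU2 : T_SU2 := Pool.Agent.H13.XW.pf_SU2 qf_RE2 qf_HDE qf_NU2 qf_GZX
  Pool.Agent.H66.AV.pf_NUM Pool.Agent.H66.AV.pf_POW Pool.Agent.H66.AV.pf_AMP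
  Pool.Agent.H66.AV.pf_RCT Pool.Agent.H66.AV.pf_OVL

theorem qf_FM2 : T_FM2 := Pool.Agent.H13.XW.pf_FM2 qf_SU2 pf_UNA qf_WMX qf_HIT qf_VWX qf_GZX
  Pool.Agent.H66.IP.pf_SPF Pool.Agent.H66.IP.pf_ISZ Pool.Agent.H66.AV.pf_ALG
  Pool.Agent.H66.AV.pf_OVL

theorem qf_FI9 : T_FI9 := Pool.Agent.H19.XW.pf_FI9 qf_FM2
  (Pool.Agent.H19.XW.pf_RL2 Pool.Agent.H66.AV.pf_RLO) pf_UNL Pool.Agent.H66.AV.pf_CPT
  qf_GDX qf_EXY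

end Pool.Agent.H17.XW
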